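import Mathlib
import Pool.Agent.H62.SqfreePow

set_option autoImplicit false

namespace Pool.Agent.Results.MP_fcd74d_nt.InfinitelyMany

theorem result :
    {n : ℕ | 3 ≤ n ∧ ∀ k : ℕ, 2 ^ k < n → Squarefree (n - 2 ^ k)}.Infinite := by
  apply Set.infinite_of_forall_exists_gt
  intro N
  obtain ⟨n, h1, h2, h3⟩ := Pool.Agent.H62.SqfreePow.exists_good (N + 1)
  exact ⟨n, ⟨h2, h3⟩, h1⟩

end Pool.Agent.Results.MP_fcd74d_nt.InfinitelyMany
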